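import Pool.Agent.H35.GEA.Fixed

/-!
# Invariant measures are concentrated on the fixed points

The property `Inv m k ρ` for all `m`, `k` (`Pool/Agent/H35/GEA/Near.lean`) gives families
`h : (Fin N → S) → F∞` with the concentration property of product spaces which are almost invariant
under the generators. Let `ν` be an invariant probability measure on a compact space, `f` continuous
and `c y = avg f (h s • y)`. By the second moment bound `avg (f (h s • x) - c x) ^ 2` is small for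
every `x`. Integrate and use the invariance of `ν`: `avg ∫ (f x - c ((h s)⁻¹ • x)) ^ 2` is small.
Replace `x` by `g • x`: by the bi-invariance `c ((h (σ s))⁻¹ • g • x)` is close to
`c ((h s)⁻¹ • x)`, so that `∫ (f (g • x) - f x) ^ 2` is small, hence zero.
-/

set_option autoImplicit false

open MeasureTheory Set Filter Topology Pool.Agent.H35.GEA

namespace Pool.Agent.H77.GW

/-- Lipschitz approximation with an explicit constant. -/
theorem lip {Γ : Type*} [Nonempty Γ] (ρ : Γ → Γ → ℝ) (hself : ∀ x, ρ x x = 0)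
    (hnn : ∀ x y, 0 ≤ ρ x y) (htri : ∀ x y z, ρ x z ≤ ρ x y + ρ y z)
    (Φ : Γ → ℝ) (B : ℝ) (hB : ∀ x, |Φ x| ≤ B) (ε δ : ℝ) (hδ : 0 < δ)
    (hΦ : ∀ x y, ρ x y < δ → |Φ x - Φ y| ≤ ε) :
    ∃ Ψ : Γ → ℝ, (∀ x y, Ψ x - Ψ y ≤ 2 * B / δ * ρ x y) ∧ ∀ x, |Φ x - Ψ x| ≤ ε := by
  have hB0 : 0 ≤ B := (abs_nonneg _).trans (hB (Classical.arbitrary Γ))
  have hε : 0 ≤ ε := by
    have := hΦ (Classical.arbitrary Γ) (Classical.arbitrary Γ) (by rw [hself]; exact hδ)
    simpa using this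
  set L : ℝ := 2 * B / δ with hLdef
  have hL : 0 ≤ L := by positivity
  have hbdd : ∀ x, BddBelow (Set.range (fun v => Φ v + L * ρ x v)) := by
    intro x
    refine ⟨-B, ?_⟩
    rintro _ ⟨v, rfl⟩
    have h1 := (abs_le.1 (hB v)).1
    have h2 := mul_nonneg hL (hnn x v)
    show -B ≤ Φ v + L * ρ x v
    linarith
  refine ⟨fun x => ⨅ v, (Φ v + L * ρ x v), ?_, ?_⟩
  · intro x y
    have h1 : (⨅ v, (Φ v + L * ρ x v)) - L * ρ x y ≤ ⨅ v, (Φ v + L * ρ y v) := by
      apply le_ciInf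
      intro v
      have h2 := ciInf_le (hbdd x) v
      have h3 := mul_le_mul_of_nonneg_left (htri x y v) hL
      have h4 : (⨅ v, (Φ v + L * ρ x v)) ≤ Φ v + L * ρ x v := h2
      linarith
    show (⨅ v, (Φ v + L * ρ x v)) - (⨅ v, (Φ v + L * ρ y v)) ≤ L * ρ x y
    linarith
  · intro x
    have h1 : (⨅ v, (Φ v + L * ρ x v)) ≤ Φ x := by
      have h2 := ciInf_le (hbdd x) x
      simp only [hself, mul_zero, add_zero] at h2
      exact h2
    have h2 : Φ x - ε ≤ ⨅ v, (Φ v + L * ρ x v) := by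
      apply le_ciInf
      intro v
      rcases lt_or_ge (ρ x v) δ with h | h
      · have h3 := (abs_le.1 (hΦ x v h)).2
        have h4 := mul_nonneg hL (hnn x v)
        linarith
      · have h3 : L * δ ≤ L * ρ x v := mul_le_mul_of_nonneg_left h hL
        have h4 : L * δ = 2 * B := by rw [hLdef]; field_simp
        have h5 := (abs_le.1 (hB v)).1
        have h6 := (abs_le.1 (hB x)).2
        linarith
    rw [abs_le]
    show -ε ≤ Φ x - (⨅ v, (Φ v + L * ρ x v)) ∧ Φ x - (⨅ v, (Φ v + L * ρ x v)) ≤ ε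
    constructor <;> linarith

/-- The mean minimizes the sum of squares. -/
theorem sum_sq_mean {Ω : Type*} [Fintype Ω] [Nonempty Ω] (a : Ω → ℝ) (μ : ℝ) :
    ∑ s, (a s - (∑ r, a r) / Fintype.card Ω) ^ 2 ≤ ∑ s, (a s - μ) ^ 2 := by
  have hc : (0 : ℝ) < Fintype.card Ω := by exact_mod_cast Fintype.card_pos
  set M := (∑ r, a r) / Fintype.card Ω with hM
  have h1 : ∑ s, (a s - M) = 0 := by
    rw [Finset.sum_sub_distrib, Finset.sum_const, Finset.card_univ, nsmul_eq_mul, hM]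
    field_simp
    ring
  have h2 : ∑ s, (a s - μ) ^ 2 = ∑ s, (a s - M) ^ 2 + Fintype.card Ω * (M - μ) ^ 2 := by
    have h3 : ∀ s, (a s - μ) ^ 2 = (a s - M) ^ 2 + 2 * (M - μ) * (a s - M) + (M - μ) ^ 2 := by
      intro s
      ring
    simp_rw [h3]
    rw [Finset.sum_add_distrib, Finset.sum_add_distrib, ← Finset.mul_sum, h1, mul_zero, add_zero,
      Finset.sum_const, Finset.card_univ, nsmul_eq_mul]
  have h3 : 0 ≤ Fintype.card Ω * (M - μ) ^ 2 := by positivity
  linarith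

/-- Concentration of a uniformly continuous function along a family indexed by a power. -/
theorem conc {Γ : Type*} [Nonempty Γ] (ρ : Γ → Γ → ℝ) (hself : ∀ x, ρ x x = 0)
    (hsymm : ∀ x y, ρ x y = ρ y x)
    (hnn : ∀ x y, 0 ≤ ρ x y) (htri : ∀ x y z, ρ x z ≤ ρ x y + ρ y z)
    {S : Type} [Fintype S] [Nonempty S] [DecidableEq S] {N : ℕ} (hN : 0 < N)
    (h : (Fin N → S) → Γ) (hh : ∀ s i b, ρ (h (Function.update s i b)) (h s) < 2 / (N : ℝ))
    (Φ : Γ → ℝ) (B : ℝ) (hB : ∀ x, |Φ x| ≤ B) (ε δ : ℝ) (hδ : 0 < δ)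
    (hΦ : ∀ x y, ρ x y < δ → |Φ x - Φ y| ≤ ε) :
    ∑ s, (Φ (h s) - (∑ r, Φ (h r)) / Fintype.card (Fin N → S)) ^ 2 ≤
      (8 * (2 * B / δ) ^ 2 / N + 2 * ε ^ 2) * Fintype.card (Fin N → S) := by
  obtain ⟨Ψ, hΨ, hΦΨ⟩ := lip ρ hself hnn htri Φ B hB ε δ hδ hΦ
  have hB0 : 0 ≤ B := (abs_nonneg _).trans (hB (Classical.arbitrary Γ))
  set L : ℝ := 2 * B / δ with hLdef
  have hL : 0 ≤ L := by positivity
  have hN' : (0 : ℝ) < N := by exact_mod_cast hN
  have habs : ∀ x y, |Ψ x - Ψ y| ≤ L * ρ x y := by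
    intro x y
    rw [abs_le]
    constructor
    · have := hΨ y x
      rw [hsymm y x] at this
      linarith
    · exact hΨ x y
  obtain ⟨μ, _, hμ⟩ := exists_mean (2 * L / N) N (fun s => Ψ (h s)) (by
    intro s i a
    calc |Ψ (h (Function.update s i a)) - Ψ (h s)|
        ≤ L * ρ (h (Function.update s i a)) (h s) := habs _ _
      _ ≤ L * (2 / N) := mul_le_mul_of_nonneg_left (hh s i a).le hL
      _ = 2 * L / N := by ring)
  have hcard : (Fintype.card (Fin N → S) : ℝ) = (Fintype.card S : ℝ) ^ N := by simp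
  refine (sum_sq_mean (fun s => Φ (h s)) μ).trans ?_
  have h1 : ∀ s, (Φ (h s) - μ) ^ 2 ≤ 2 * (Ψ (h s) - μ) ^ 2 + 2 * ε ^ 2 := by
    intro s
    have h2 := hΦΨ (h s)
    have h3 : (Φ (h s) - Ψ (h s)) ^ 2 ≤ ε ^ 2 := by
      rw [← sq_abs (Φ (h s) - Ψ (h s))]
      exact pow_le_pow_left₀ (abs_nonneg _) h2 2
    nlinarith [sq_nonneg ((Φ (h s) - Ψ (h s)) - (Ψ (h s) - μ))]
  calc ∑ s, (Φ (h s) - μ) ^ 2 ≤ ∑ s, (2 * (Ψ (h s) - μ) ^ 2 + 2 * ε ^ 2) :=
        Finset.sum_le_sum fun s _ => h1 s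
    _ = 2 * ∑ s, (Ψ (h s) - μ) ^ 2 + 2 * ε ^ 2 * Fintype.card (Fin N → S) := by
        rw [Finset.sum_add_distrib, ← Finset.mul_sum, Finset.sum_const, Finset.card_univ,
          nsmul_eq_mul]
        ring
    _ ≤ 2 * (N * (2 * L / N) ^ 2 * (Fintype.card S : ℝ) ^ N) +
        2 * ε ^ 2 * Fintype.card (Fin N → S) := by
        have := mul_le_mul_of_nonneg_left hμ (by norm_num : (0 : ℝ) ≤ 2)
        linarith
    _ = (8 * L ^ 2 / N + 2 * ε ^ 2) * Fintype.card (Fin N → S) := by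
        rw [hcard]
        field_simp
        ring

section Action

variable {G : Type*} [Group G] [MetricSpace G] (ι : FreeGroup ℕ →* G)
variable (ρ : FreeGroup ℕ → FreeGroup ℕ → ℝ)
variable {X : Type*} [TopologicalSpace X] [CompactSpace X] [MulAction G X] [ContinuousSMul G X]

/-- Uniform continuity of the orbit functions, uniformly in the point. -/
theorem uc (hρ : IsBiPseudo ρ) (hdist : ∀ x y, dist (ι x) (ι y) = ρ x y) (f : C(X, ℝ)) {ε : ℝ}
    (hε : 0 < ε) : ∃ δ > 0, ∀ u v : FreeGroup ℕ, ρ u v < δ → ∀ x : X,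
      |f (ι u • x) - f (ι v • x)| ≤ ε := by
  have h1 : ∀ᶠ g : G in 𝓝 1, ∀ x ∈ (Set.univ : Set X), |f (g • x) - f x| < ε := by
    apply isCompact_univ.eventually_forall_of_forall_eventually
    intro x _
    have hcont : Continuous (fun z : G × X => |f (z.1 • z.2) - f z.2|) := by
      fun_prop
    have h2 : (fun z : G × X => |f (z.1 • z.2) - f z.2|) (1, x) < ε := by
      simp [hε]
    exact hcont.continuousAt.eventually_lt continuousAt_const h2
  rw [Metric.eventually_nhds_iff] at h1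
  obtain ⟨δ, hδ, h1⟩ := h1
  refine ⟨δ, hδ, fun u v huv x => ?_⟩
  have h3 : dist (ι (u * v⁻¹)) 1 < δ := by
    have e1 : ρ (u * v⁻¹) 1 = ρ u v := by
      have := hρ.biinv 1 u v v⁻¹
      simpa using this
    rw [← map_one ι, hdist, e1]
    exact huv
  have h4 := h1 h3 (ι v • x) (Set.mem_univ _)
  have h5 : ι (u * v⁻¹) • ι v • x = ι u • x := by
    rw [smul_smul, ← _root_.map_mul, inv_mul_cancel_right]
  rw [h5] at h4
  exact h4.le

variable [MeasurableSpace X] [BorelSpace X] (ν : Measure X) [IsProbabilityMeasure ν]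

theorem int_smul (hν : ∀ g : G, ν.map (fun x => g • x) = ν) (g : G) (φ : X → ℝ) :
    ∫ x, φ (g • x) ∂ν = ∫ x, φ x ∂ν := by
  have h1 : MeasurePreserving (fun x : X => g • x) ν ν :=
    ⟨(continuous_const_smul g).measurable, hν g⟩
  have h2 : MeasurableEmbedding (fun x : X => g • x) :=
    (Homeomorph.smul g).measurableEmbedding
  exact h1.integral_comp h2 φ

omit [MulAction G X] [ContinuousSMul G X] in
theorem int_cont {φ : X → ℝ} (hφ : Continuous φ) : Integrable φ ν := by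
  obtain ⟨C, hC⟩ := isCompact_univ.exists_bound_of_continuousOn (f := φ) hφ.continuousOn
  exact Integrable.of_bound hφ.aestronglyMeasurable C
    (Eventually.of_forall fun x => hC x (mem_univ _))

/-- The basic estimate for a generator. -/
theorem est (hρ : IsBiPseudo ρ) (hdist : ∀ x y, dist (ι x) (ι y) = ρ x y)
    (hinv : ∀ m k, Inv m k ρ) (hν : ∀ g : G, ν.map (fun x => g • x) = ν) (f : C(X, ℝ)) (a : ℕ)
    {ε : ℝ} (hε : 0 < ε) :
    ∫ x, (f (ι (FreeGroup.of a) • x) - f x) ^ 2 ∂ν ≤ 21 * ε ^ 2 := by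
  obtain ⟨δ, hδ, hf⟩ := uc ι ρ hρ hdist f hε
  obtain ⟨B, hB⟩ := isCompact_univ.exists_bound_of_continuousOn (f := fun x => f x)
    (by fun_prop)
  have hB' : ∀ x, |f x| ≤ B := fun x => by simpa using hB x (mem_univ _)
  set L : ℝ := 2 * B / δ with hL
  obtain ⟨k, hk⟩ := exists_nat_gt (max (1 / δ) (8 * L ^ 2 / ε ^ 2))
  have hk1 : 1 / δ < k := lt_of_le_of_lt (le_max_left _ _) hk
  have hk2 : 8 * L ^ 2 / ε ^ 2 < k := lt_of_le_of_lt (le_max_right _ _) hk
  obtain ⟨S, _, _, _, N, hN, σ, h, h1, h2⟩ := hinv (a + 1) k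
  have hN0 : 0 < N := lt_of_le_of_lt (Nat.zero_le _) hN
  have hN' : (0 : ℝ) < N := by exact_mod_cast hN0
  have hkN : (k : ℝ) < N := by exact_mod_cast hN
  set τ : Equiv.Perm (Fin N → S) := σ ⟨a, Nat.lt_succ_self a⟩ with hτ
  have h1' : ∀ s, ρ (FreeGroup.of a * h s) (h (τ s)) < δ := by
    intro s
    refine (h1 ⟨a, Nat.lt_succ_self a⟩ s).trans ?_
    rw [div_lt_iff₀ (by positivity)]
    rw [div_lt_iff₀ hδ] at hk1
    nlinarith
  set n : ℝ := (Fintype.card (Fin N → S) : ℝ) with hn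
  have hn0 : 0 < n := by
    rw [hn]
    exact_mod_cast Fintype.card_pos
  -- the average
  set c : X → ℝ := fun y => (∑ r, f (ι (h r) • y)) / n with hc
  have hcc : Continuous c := by
    have : ∀ r, Continuous fun y : X => f (ι (h r) • y) := fun r => by fun_prop
    exact (continuous_finsetSum _ fun r _ => this r).div_const _
  have hsmall : 8 * L ^ 2 / N + 2 * ε ^ 2 ≤ 3 * ε ^ 2 := by
    have h3 : 8 * L ^ 2 / N ≤ ε ^ 2 := by
      rw [div_le_iff₀ hN']
      rw [div_lt_iff₀ (by positivity)] at hk2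
      have h4 : (k : ℝ) * ε ^ 2 ≤ N * ε ^ 2 := mul_le_mul_of_nonneg_right hkN.le (by positivity)
      linarith
    linarith
  have hconc : ∀ x, ∑ s, (f (ι (h s) • x) - c x) ^ 2 ≤ 3 * ε ^ 2 * n := by
    intro x
    have h3 := conc ρ hρ.self hρ.symm hρ.nonneg hρ.triangle hN0 h h2
      (fun u => f (ι u • x)) B (fun u => hB' _) ε δ hδ (fun u v huv => hf u v huv x)
    exact h3.trans (mul_le_mul_of_nonneg_right hsmall hn0.le)
  -- the integrals
  set I : (Fin N → S) → ℝ := fun s => ∫ x, (f x - c ((ι (h s))⁻¹ • x)) ^ 2 ∂ν with hI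
  have hIs : ∀ s, I s = ∫ x, (f (ι (h s) • x) - c x) ^ 2 ∂ν := by
    intro s
    rw [hI]
    have h3 := int_smul ν hν (ι (h s)) fun x => (f x - c ((ι (h s))⁻¹ • x)) ^ 2
    simp only [inv_smul_smul] at h3
    exact h3.symm
  have hIsum : ∑ s, I s ≤ 3 * ε ^ 2 * n := by
    simp_rw [hIs]
    rw [← integral_finsetSum _ fun s _ => int_cont ν (by fun_prop)]
    calc ∫ x, ∑ s, (f (ι (h s) • x) - c x) ^ 2 ∂ν ≤ ∫ _x, 3 * ε ^ 2 * n ∂ν :=
          integral_mono (int_cont ν (by fun_prop)) (integrable_const _) hconc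
      _ = 3 * ε ^ 2 * n := by simp
  have hItau : ∑ s, I (τ s) = ∑ s, I s := Equiv.sum_comp τ I
  -- comparison of the averages
  have hcomp : ∀ s x, |c ((ι (h (τ s)))⁻¹ • ι (FreeGroup.of a) • x) - c ((ι (h s))⁻¹ • x)| ≤ ε := by
    intro s x
    have h3 : ∀ r, |f (ι (h r) • (ι (h (τ s)))⁻¹ • ι (FreeGroup.of a) • x) -
        f (ι (h r) • (ι (h s))⁻¹ • x)| ≤ ε := by
      intro r
      have h4 : ρ (h r * (h (τ s))⁻¹ * FreeGroup.of a) (h r * (h s)⁻¹) < δ := by
        have h5 := hρ.biinv (h r * (h (τ s))⁻¹) (FreeGroup.of a * h s) (h (τ s)) (h s)⁻¹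
        have e1 : h r * (h (τ s))⁻¹ * (FreeGroup.of a * h s) * (h s)⁻¹ =
            h r * (h (τ s))⁻¹ * FreeGroup.of a := by group
        have e2 : h r * (h (τ s))⁻¹ * h (τ s) * (h s)⁻¹ = h r * (h s)⁻¹ := by group
        rw [e1, e2] at h5
        rw [h5]
        exact h1' s
      have h6 := hf _ _ h4 x
      simpa only [_root_.map_mul, _root_.map_inv, mul_smul] using h6
    have h7 : c ((ι (h (τ s)))⁻¹ • ι (FreeGroup.of a) • x) - c ((ι (h s))⁻¹ • x) =
        (∑ r, (f (ι (h r) • (ι (h (τ s)))⁻¹ • ι (FreeGroup.of a) • x) -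
        f (ι (h r) • (ι (h s))⁻¹ • x))) / n := by
      rw [Finset.sum_sub_distrib, sub_div]
    rw [h7, abs_div, abs_of_pos hn0, div_le_iff₀ hn0]
    calc |∑ r, (f (ι (h r) • (ι (h (τ s)))⁻¹ • ι (FreeGroup.of a) • x) -
        f (ι (h r) • (ι (h s))⁻¹ • x))| ≤ ∑ r, |f (ι (h r) • (ι (h (τ s)))⁻¹ •
        ι (FreeGroup.of a) • x) - f (ι (h r) • (ι (h s))⁻¹ • x)| := Finset.abs_sum_le_sum_abs _ _
      _ ≤ ∑ _r : Fin N → S, ε := Finset.sum_le_sum fun r _ => h3 r
      _ = ε * n := by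
        rw [Finset.sum_const, Finset.card_univ, nsmul_eq_mul, mul_comm]
  -- pointwise in `s`
  have hD : ∀ s, ∫ x, (f (ι (FreeGroup.of a) • x) - f x) ^ 2 ∂ν ≤
      3 * (I (τ s) + ε ^ 2 + I s) := by
    intro s
    have h3 : I (τ s) = ∫ x, (f (ι (FreeGroup.of a) • x) -
        c ((ι (h (τ s)))⁻¹ • ι (FreeGroup.of a) • x)) ^ 2 ∂ν :=
      (int_smul ν hν (ι (FreeGroup.of a)) fun x => (f x - c ((ι (h (τ s)))⁻¹ • x)) ^ 2).symm
    have i1 : Integrable (fun x => (f (ι (FreeGroup.of a) • x) -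
        c ((ι (h (τ s)))⁻¹ • ι (FreeGroup.of a) • x)) ^ 2) ν := int_cont ν (by fun_prop)
    have i2 : Integrable (fun x => (f x - c ((ι (h s))⁻¹ • x)) ^ 2) ν := int_cont ν (by fun_prop)
    have i3 : Integrable (fun _ : X => ε ^ 2) ν := integrable_const _
    have h4 : 3 * (I (τ s) + ε ^ 2 + I s) = ∫ x, 3 * (((f (ι (FreeGroup.of a) • x) -
        c ((ι (h (τ s)))⁻¹ • ι (FreeGroup.of a) • x)) ^ 2 + ε ^ 2) +
        (f x - c ((ι (h s))⁻¹ • x)) ^ 2) ∂ν := by
      have i13 : Integrable (fun x => (f (ι (FreeGroup.of a) • x) -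
          c ((ι (h (τ s)))⁻¹ • ι (FreeGroup.of a) • x)) ^ 2 + ε ^ 2) ν := i1.add i3
      rw [integral_const_mul, integral_add i13 i2, integral_add i1 i3, ← h3]
      simp [hI]
    rw [h4]
    refine integral_mono (int_cont ν (by fun_prop)) (((i1.add i3).add i2).const_mul 3) fun x => ?_
    have h5 := hcomp s x
    have h6 : (c ((ι (h (τ s)))⁻¹ • ι (FreeGroup.of a) • x) - c ((ι (h s))⁻¹ • x)) ^ 2 ≤ ε ^ 2 := by
      rw [← sq_abs (c ((ι (h (τ s)))⁻¹ • ι (FreeGroup.of a) • x) - c ((ι (h s))⁻¹ • x))]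
      exact pow_le_pow_left₀ (abs_nonneg _) h5 2
    simp only
    set p := f (ι (FreeGroup.of a) • x)
    set q := f x
    set c1 := c ((ι (h (τ s)))⁻¹ • ι (FreeGroup.of a) • x)
    set c2 := c ((ι (h s))⁻¹ • x)
    nlinarith [sq_nonneg ((p - c1) - (c1 - c2)), sq_nonneg ((p - c1) - (c2 - q)),
      sq_nonneg ((c1 - c2) - (c2 - q))]
  have hsum : n * ∫ x, (f (ι (FreeGroup.of a) • x) - f x) ^ 2 ∂ν ≤ n * (21 * ε ^ 2) := by
    calc n * ∫ x, (f (ι (FreeGroup.of a) • x) - f x) ^ 2 ∂ν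
        = ∑ _s : Fin N → S, ∫ x, (f (ι (FreeGroup.of a) • x) - f x) ^ 2 ∂ν := by
          rw [Finset.sum_const, Finset.card_univ, nsmul_eq_mul]
      _ ≤ ∑ s, 3 * (I (τ s) + ε ^ 2 + I s) := Finset.sum_le_sum fun s _ => hD s
      _ = 3 * (∑ s, I (τ s) + n * ε ^ 2 + ∑ s, I s) := by
          rw [← Finset.mul_sum, Finset.sum_add_distrib, Finset.sum_add_distrib, Finset.sum_const,
            Finset.card_univ, nsmul_eq_mul]
      _ ≤ n * (21 * ε ^ 2) := by
          rw [hItau]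
          linarith
  exact le_of_mul_le_mul_left hsum hn0

/-- Continuous functions are almost everywhere invariant. -/
theorem ae_inv (hdense : DenseRange ι) (hρ : IsBiPseudo ρ)
    (hdist : ∀ x y, dist (ι x) (ι y) = ρ x y)
    (hinv : ∀ m k, Inv m k ρ) (hν : ∀ g : G, ν.map (fun x => g • x) = ν) (g : G) (f : C(X, ℝ)) :
    ∀ᵐ x ∂ν, f (g • x) = f x := by
  have hzero : ∀ (g : G) (f : C(X, ℝ)), (∫ x, (f (g • x) - f x) ^ 2 ∂ν = 0) ↔
      ∀ᵐ x ∂ν, f (g • x) = f x := by
    intro g f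
    have hi : Integrable (fun x => (f (g • x) - f x) ^ 2) ν := int_cont ν (by fun_prop)
    rw [integral_eq_zero_iff_of_nonneg (fun x => sq_nonneg _) hi]
    constructor
    · intro h
      filter_upwards [h] with x hx
      have h1 : (f (g • x) - f x) ^ 2 = 0 := hx
      have h2 := pow_eq_zero_iff (two_ne_zero) |>.1 h1
      linarith
    · intro h
      filter_upwards [h] with x hx
      rw [hx]
      simp
  have hgen : ∀ (a : ℕ) (f : C(X, ℝ)), ∀ᵐ x ∂ν, f (ι (FreeGroup.of a) • x) = f x := by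
    intro a f
    rw [← hzero]
    refine le_antisymm ?_ (integral_nonneg fun x => sq_nonneg _)
    refine le_of_forall_pos_le_add fun η hη => ?_
    have h1 : 0 < Real.sqrt (η / 21) := Real.sqrt_pos.2 (by positivity)
    have h2 := est ι ρ ν hρ hdist hinv hν f a h1
    rw [Real.sq_sqrt (by positivity)] at h2
    linarith
  have hF : ∀ (u : FreeGroup ℕ) (f : C(X, ℝ)), ∀ᵐ x ∂ν, f (ι u • x) = f x := by
    intro u
    induction u using FreeGroup.induction_on with
    | C1 => intro f; simp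
    | of i => exact hgen i
    | inv_of i ih =>
      intro f
      let f' : C(X, ℝ) := ⟨fun x => f ((ι (FreeGroup.of i))⁻¹ • x), by fun_prop⟩
      filter_upwards [hgen i f'] with x hx
      have h1 : f ((ι (FreeGroup.of i))⁻¹ • ι (FreeGroup.of i) • x) =
          f ((ι (FreeGroup.of i))⁻¹ • x) := hx
      rw [inv_smul_smul] at h1
      rw [_root_.map_inv]
      exact h1.symm
    | mul u v ihu ihv =>
      intro f
      let f' : C(X, ℝ) := ⟨fun x => f (ι u • x), by fun_prop⟩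
      filter_upwards [ihu f, ihv f'] with x hx1 hx2
      have h1 : f (ι u • ι v • x) = f (ι u • x) := hx2
      rw [_root_.map_mul, mul_smul, h1, hx1]
  rw [← hzero]
  obtain ⟨B, hB⟩ := isCompact_univ.exists_bound_of_continuousOn (f := fun x => f x)
    (by fun_prop)
  have hB' : ∀ x, |f x| ≤ B := fun x => by simpa using hB x (mem_univ _)
  have hcont : Continuous fun g : G => ∫ x, (f (g • x) - f x) ^ 2 ∂ν := by
    refine continuous_of_dominated (bound := fun _ => (2 * B) ^ 2) ?_ ?_ (integrable_const _) ?_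
    · intro g
      exact (int_cont ν (by fun_prop)).aestronglyMeasurable
    · intro g
      refine Eventually.of_forall fun x => ?_
      rw [Real.norm_eq_abs, abs_of_nonneg (sq_nonneg _), ← sq_abs]
      refine pow_le_pow_left₀ (abs_nonneg _) ?_ 2
      have h1 := abs_sub (f (g • x)) (f x)
      have h2 := hB' (g • x)
      have h3 := hB' x
      linarith
    · exact Eventually.of_forall fun x => by fun_prop
  have hclosed : IsClosed {g : G | ∫ x, (f (g • x) - f x) ^ 2 ∂ν = 0} :=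
    isClosed_eq hcont continuous_const
  have hg : g ∈ closure (Set.range ι) := hdense g
  refine closure_minimal ?_ hclosed hg
  rintro _ ⟨u, rfl⟩
  exact (hzero _ _).2 (hF u f)

/-- **Invariant measures are concentrated on the fixed points.** -/
theorem measure_fixed [T2Space X] [ν.Regular] (hdense : DenseRange ι) (hρ : IsBiPseudo ρ)
    (hdist : ∀ x y, dist (ι x) (ι y) = ρ x y)
    (hinv : ∀ m k, Inv m k ρ) (hν : ∀ g : G, ν.map (fun x => g • x) = ν) :
    ν {x | ∀ g : G, g • x = x} = 1 := by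
  have hcl : IsClosed {x : X | ∀ g : G, g • x = x} := by
    rw [Set.ofPred_forall]
    exact isClosed_iInter fun g => isClosed_eq (by fun_prop) continuous_id
  have h0 : ν {x : X | ∀ g : G, g • x = x}ᶜ = 0 := by
    rw [hcl.isOpen_compl.measure_eq_iSup_isCompact ν]
    simp only [ENNReal.iSup_eq_zero]
    intro K hK hKc
    refine hKc.measure_zero_of_nhdsWithin fun x hx => ?_
    have h1 : ∃ g : G, g • x ≠ x := by
      have h2 := hK hx
      simp only [mem_compl_iff, mem_ofPred_eq, not_forall] at h2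
      exact h2
    obtain ⟨g, hg⟩ := h1
    obtain ⟨f, hf0, hf1, _⟩ := exists_continuous_zero_one_of_isClosed
      (isClosed_singleton (x := g • x)) (isClosed_singleton (x := x)) (by simpa using hg)
    have e0 : f (g • x) = 0 := hf0 rfl
    have e1 : f x = 1 := hf1 rfl
    refine ⟨{y : X | f (g • y) ≠ f y}, mem_nhdsWithin_of_mem_nhds ?_, ?_⟩
    · have ho : IsOpen {y : X | f (g • y) ≠ f y} := isOpen_ne_fun (by fun_prop) (by fun_prop)
      exact ho.mem_nhds (by simp [e0, e1])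
    · have h2 := ae_inv ι ρ ν hdense hρ hdist hinv hν g f
      rw [ae_iff] at h2
      exact h2
  have h1 := prob_compl_eq_zero_iff hcl.measurableSet (μ := ν)
  exact h1.1 h0

end Action

end Pool.Agent.H77.GW
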